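import Mathlib

/-!
# Horace-type induction for forms with prescribed exponents: definitions

`ι` is the finite set of (homogeneous) variables.  A form is given by its coefficient function
`f : (ι → ℕ) → R`, of which only the values on a finite set `A` of exponents matter.
-/

namespace Pool.Agent.H18.Ex

open Finset

/-! ### Geometry -/

/-- `binom(m + n - 1, n)`, the length of a point of multiplicity `m` in dimension `n`. -/
def ell (n m : ℕ) : ℕ := (m + n - 1).choose n

section

variable {ι : Type} [Fintype ι] [DecidableEq ι]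

/-- The `b`-th Taylor (Hasse) coefficient of the monomial `x^a` at the point `q`. -/
def tcr {R : Type*} [CommRing R] (q : ι → R) (a b : ι → ℕ) : R :=
  ∏ i, (((a i).choose (b i) : ℕ) : R) * q i ^ (a i - b i)

end

/-- The kinds of conditions.  `free m`: vanishing to order `m` at a general point.
`forced l c e`: the conditions with multi-index `b`, `|b| < c`, `b l + e ≤ c` at a general point
of the hyperplane `x_l = 0` (for `e = 1` this is vanishing to order `c` there). -/
inductive Kind (ι : Type) : Type where
  | free (m : ℕ) : Kind ι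
  | forced (l : ι) (c e : ℕ) : Kind ι

section

variable {ι : Type} [Fintype ι] [DecidableEq ι]

/-- The actual point of a condition: for `forced l` the `l`-th coordinate is replaced by `0`. -/
def Kind.pt {R : Type*} [Zero R] (k : Kind ι) (q : ι → R) : ι → R :=
  match k with
  | .free _ => q
  | .forced l _ _ => Function.update q l 0

/-- The multi-indices of a condition. -/
def Kind.Idx (k : Kind ι) (b : ι → ℕ) : Prop :=
  match k with
  | .free m => ∑ i, b i < m
  | .forced l c e => ∑ i, b i < c ∧ b l + e ≤ c

/-- The form with coefficients `f` (on `A`) satisfies the condition `k` at the point `q`. -/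
def Sat {R : Type*} [CommRing R] (A : Finset (ι → ℕ)) (f : (ι → ℕ) → R) (k : Kind ι)
    (q : ι → R) : Prop :=
  ∀ b, k.Idx b → ∑ a ∈ A, f a * tcr (k.pt q) a b = 0

/-- At the positions `pos` only the zero form satisfies all conditions. -/
def InjAt {κ : Type} (A : Finset (ι → ℕ)) (k : κ → Kind ι) (pos : κ → ι → ℂ) : Prop :=
  ∀ f : (ι → ℕ) → ℂ, (∀ i, Sat A f (k i) (pos i)) → ∀ a ∈ A, f a = 0

/-- At some (equivalently, at general) positions only the zero form satisfies all conditions. -/
def GI {κ : Type} (A : Finset (ι → ℕ)) (k : κ → Kind ι) : Prop :=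
  ∃ pos : κ → ι → ℂ, InjAt A k pos

/-- The same for a multiset of conditions. -/
def GM (A : Finset (ι → ℕ)) (S : Multiset (Kind ι)) : Prop :=
  ∃ (n : ℕ) (k : Fin n → Kind ι), (univ : Finset (Fin n)).val.map k = S ∧ GI A k

/-- `A` (of dimension `n`) is exact for multiplicities up to `M`: any points of multiplicity at
most `M` with total length at least `|A|` kill all forms with exponents in `A`. -/
def Exa (n M : ℕ) (A : Finset (ι → ℕ)) : Prop :=
  ∀ G : Multiset ℕ, (∀ m ∈ G, m ≤ M) → A.card ≤ (G.map (ell n)).sum → GM A (G.map Kind.free)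

/-- The condition is not forced to the hyperplane `x_l = 0`. -/
def Kind.NotAt (l : ι) (k : Kind ι) : Prop :=
  match k with
  | .free _ => True
  | .forced l' _ _ => l' ≠ l

/-- Passing to the residual along `x_l = 0` when no new point is put on the hyperplane. -/
def Kind.dn (l : ι) (k : Kind ι) : Kind ι :=
  match k with
  | .free m => .free m
  | .forced l' c e => if l' = l then .forced l' (c - 1) e else .forced l' c e

end

/-- The role of a condition in a Horace step along `x_l = 0`. -/
inductive Role (ι : Type) : Type where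
  | stay (k : Kind ι) : Role ι
  | here (c e : ℕ) : Role ι
  | ord (m : ℕ) : Role ι
  | dif : Role ι

section

variable {ι : Type}

/-- The condition before the step; `μ` is the common multiplicity of the differential points. -/
def Role.before (l : ι) (μ : ℕ) (r : Role ι) : Kind ι :=
  match r with
  | .stay k => k
  | .here c e => .forced l c e
  | .ord m => .free m
  | .dif => .free μ

/-- The multiplicity of the trace on the hyperplane. -/
def Role.layer (r : Role ι) : ℕ :=
  match r with
  | .stay _ => 0
  | .here c e => if e ≤ c then c else 0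
  | .ord m => m
  | .dif => 1

/-- The residual condition. -/
def Role.after (l : ι) (μ : ℕ) (r : Role ι) : Kind ι :=
  match r with
  | .stay k => k
  | .here c e => .forced l (c - 1) e
  | .ord m => .forced l (m - 1) 1
  | .dif => .forced l μ 2

end

/-! ### Configurations -/

/-- `N` is the multiset of the multiplicities (at least two) of the free points, `s` is the number
of the free simple points, `Φ l` is the multiset of the pairs `(c, e)` of the forced conditions on
`x_l = 0`. -/
structure Cfg (ι : Type) : Type where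
  /-- multiplicities of the free points of multiplicity at least two -/
  N : Multiset ℕ
  /-- number of the free simple points -/
  s : ℕ
  /-- forced conditions -/
  Φ : ι → Multiset (ℕ × ℕ)

/-- One step down of the forced conditions. -/
def shf (S : Multiset (ℕ × ℕ)) : Multiset (ℕ × ℕ) :=
  (S.map fun x => (x.1 - 1, x.2)).filter fun x => x.2 ≤ x.1

/-- `M * binom(M + n - 1, n)`. -/
def g0 (n M : ℕ) : ℕ := M * ell n M

section

variable {ι : Type}

/-- Validity of a configuration. -/
structure Cfg.OK (M : ℕ) (c : Cfg ι) : Prop where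
  hN : ∀ m ∈ c.N, 2 ≤ m ∧ m ≤ M
  hΦ : ∀ l, ∀ x ∈ c.Φ l, 1 ≤ x.2 ∧ x.2 ≤ 2 ∧ x.2 ≤ x.1 ∧ x.1 ≤ M

/-- Total length of the traces of the forced conditions on `x_l = 0` (region of dimension
`n + 1`, hyperplanes of dimension `n`). -/
def Cfg.tr (n : ℕ) (c : Cfg ι) (l : ι) : ℕ := ((c.Φ l).map fun x => ell n x.1).sum

/-- Total length of the forced conditions on `x_l = 0`. -/
def Cfg.fl (n : ℕ) (c : Cfg ι) (l : ι) : ℕ :=
  ((c.Φ l).map fun x => ell (n + 1) x.1 + 1 - x.2).sum

/-- Total length of the free points. -/
def Cfg.nsz (n : ℕ) (c : Cfg ι) : ℕ := (c.N.map (ell (n + 1))).sum + c.s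

/-- Total length. -/
def Cfg.sz [Fintype ι] (n : ℕ) (c : Cfg ι) : ℕ := c.nsz n + ∑ l, c.fl n l

/-- The conditions of a configuration. -/
def Cfg.kinds [Fintype ι] (c : Cfg ι) : Multiset (Kind ι) :=
  c.N.map Kind.free + Multiset.replicate c.s (Kind.free 1) +
    ∑ l, (c.Φ l).map fun x => Kind.forced l x.1 x.2

end

/-! ### Regions -/

section

variable {ι : Type} [Fintype ι] [DecidableEq ι]

/-- The region `{x ∈ ℕ^ι : |x| = σ, x ≤ w}`. -/
def Rg (σ : ℕ) (w : ι → ℕ) : Finset (ι → ℕ) :=
  (Fintype.piFinset fun i => range (w i + 1)).filter fun a => ∑ i, a i = σ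

theorem mem_Rg {σ : ℕ} {w : ι → ℕ} {a : ι → ℕ} :
    a ∈ Rg σ w ↔ (∀ i, a i ≤ w i) ∧ ∑ i, a i = σ := by
  unfold Rg
  rw [mem_filter, Fintype.mem_piFinset]
  simp only [mem_range, Nat.lt_succ_iff]

/-- The number of exponents of the region with `x_l = 0`. -/
def fc (σ : ℕ) (w : ι → ℕ) (l : ι) : ℕ := (Rg σ (Function.update w l 0)).card

/-- The region `Rg σ w` has dimension `n` (that is, `n + 1` active coordinates) and all its
widths are at least `D`. -/
def Fat (n D σ : ℕ) (w : ι → ℕ) : Prop :=
  (univ.filter fun i => 0 < w i).card = n + 1 ∧ D ≤ σ ∧ (∀ i, 0 < w i → D ≤ w i) ∧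
    σ + D ≤ ∑ i, w i

/-- Normalised regions of dimension `n`. -/
structure Nrm (n D : ℕ) (o : ι) (σ : ℕ) (w : ι → ℕ) : Prop where
  hcard : (univ.filter fun i => 0 < w i).card = n + 1
  ho : 0 < w o
  hwo : ∀ i, w i ≤ w o
  hwσ : ∀ i, w i ≤ σ
  hσ : 2 * σ ≤ ∑ i, w i
  hD : ∀ i, 0 < w i → D ≤ w i

/-- The new bound for the traces of the forced conditions after a step with layer of size `f`. -/
def nphi (n M f : ℕ) : ℕ := (M - 1) * f / M + ell n M ^ 2

/-- A list of directions along which the region can be peeled (region of dimension `n + 1`,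
layers of dimension `n`); `X` is the property required of the layers, `φ` bounds the traces of
the forced conditions. -/
def Good (n M : ℕ) (X : ℕ → (ι → ℕ) → Prop) : List ι → ℕ → (ι → ℕ) → (ι → ℕ) → Prop
  | [], _, _, _ => True
  | l :: L, σ, w, φ =>
    1 ≤ σ ∧ 1 ≤ w l ∧ X σ (Function.update w l 0) ∧
    φ l + g0 n M * ell n M ≤ fc σ w l ∧
    M * ∑ i, φ i + ell (n + 1) M * (fc σ w l + g0 n M) + fc σ w l ≤ (Rg σ w).card ∧
    Good n M X L (σ - 1) (Function.update w l (w l - 1))
      (Function.update φ l (nphi n M (fc σ w l)))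

/-- The bounds at the end of a list of directions. -/
def eph (n M : ℕ) : List ι → ℕ → (ι → ℕ) → (ι → ℕ) → (ι → ℕ)
  | [], _, _, φ => φ
  | l :: L, σ, w, φ => eph n M L (σ - 1) (Function.update w l (w l - 1))
      (Function.update φ l (nphi n M (fc σ w l)))

/-- The widths at the end of a list of directions. -/
def ew (L : List ι) (w : ι → ℕ) : ι → ℕ := fun i => w i - L.count i

end

end Pool.Agent.H18.Ex
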